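import Pool.Agent.Helper14_SN.Stmts

/-!
# Squad SN: module MOD
-/

set_option autoImplicit false

namespace Pool.Agent.SN.H32

/-- MOD -/
theorem mod : ModStmt := by
  intro n k p t w N s c
  induction N with
  | leaf B =>
    simp only [Net.map, Net.val]
    split
    · rfl
    · simp
  | node M N N' ih ih' =>
    simp only [Net.map, Net.val]
    push_cast
    apply Finset.sum_congr rfl
    intro a _
    apply Finset.sum_congr rfl
    intro b _
    rw [ih, ih']
    rfl

end Pool.Agent.SN.H32
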