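import Pool.Agent.Helper14_SN.Stmts

/-!
# Squad SN: module PRM
-/

set_option autoImplicit false

namespace Pool.Agent.SN.H32

/-- `C(2n, n) ≤ (2n) ^ π(2n)` -/
theorem centralBinom_le (n : ℕ) (hn : 1 ≤ n) :
    n.centralBinom ≤ (2 * n) ^ ((Finset.range (2 * n + 1)).filter Nat.Prime).card := by
  have h1 := Nat.prod_pow_factorization_centralBinom n
  have h2 : ∏ p ∈ Finset.range (2 * n + 1), p ^ n.centralBinom.factorization p =
      ∏ p ∈ (Finset.range (2 * n + 1)).filter Nat.Prime, p ^ n.centralBinom.factorization p := by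
    rw [Finset.prod_filter]
    apply Finset.prod_congr rfl
    intro p _
    split_ifs with h
    · rfl
    · rw [Nat.factorization_eq_zero_of_not_prime _ h, pow_zero]
  rw [← h1, h2]
  calc _ ≤ ∏ _p ∈ (Finset.range (2 * n + 1)).filter Nat.Prime, 2 * n := by
        apply Finset.prod_le_prod'
        intro p _
        exact Nat.pow_factorization_choose_le (by omega)
    _ = _ := by rw [Finset.prod_const]

/-- there are more than `B` primes up to `4 (B + 2) ^ 2` -/
theorem lt_card_primes (B : ℕ) :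
    B < ((Finset.range (4 * (B + 2) ^ 2 + 1)).filter Nat.Prime).card := by
  by_contra hcon
  push Not at hcon
  have h4 : 4 ≤ (B + 2) ^ 2 := by nlinarith [Nat.zero_le B]
  have h1 := Nat.four_pow_lt_mul_centralBinom (2 * (B + 2) ^ 2) (by omega)
  have h2 := centralBinom_le (2 * (B + 2) ^ 2) (by omega)
  have e : 2 * (2 * (B + 2) ^ 2) = 4 * (B + 2) ^ 2 := by ring
  rw [e] at h2
  have h3 : (4 * (B + 2) ^ 2) ^ ((Finset.range (4 * (B + 2) ^ 2 + 1)).filter Nat.Prime).card ≤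
      (4 * (B + 2) ^ 2) ^ B := Nat.pow_le_pow_right (by omega) hcon
  have h5 : 4 ^ (2 * (B + 2) ^ 2) < (4 * (B + 2) ^ 2) ^ (B + 1) := by
    calc _ < 2 * (B + 2) ^ 2 * Nat.centralBinom (2 * (B + 2) ^ 2) := h1
      _ ≤ (4 * (B + 2) ^ 2) * (4 * (B + 2) ^ 2) ^ B :=
          Nat.mul_le_mul (by omega) (h2.trans h3)
      _ = _ := by ring
  have h6 : B + 2 < 2 ^ (B + 2) := Nat.lt_two_pow_self
  have h7 : 4 * (B + 2) ^ 2 ≤ 2 ^ (2 * (B + 3)) := by
    calc 4 * (B + 2) ^ 2 ≤ 4 * (2 ^ (B + 2)) ^ 2 :=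
          Nat.mul_le_mul_left _ (Nat.pow_le_pow_left h6.le 2)
      _ = _ := by
          rw [← pow_mul, show 2 * (B + 3) = 2 + (B + 2) * 2 by ring, pow_add]
          norm_num
  have h8 : (4 * (B + 2) ^ 2) ^ (B + 1) ≤ 2 ^ (2 * (B + 3) * (B + 1)) := by
    rw [pow_mul]
    exact Nat.pow_le_pow_left h7 _
  have h9 : 4 ^ (2 * (B + 2) ^ 2) = 2 ^ (4 * (B + 2) ^ 2) := by
    rw [show (4 : ℕ) = 2 ^ 2 by norm_num, ← pow_mul]
    congr 1
  rw [h9] at h5
  have h10 := (Nat.pow_lt_pow_iff_right (a := 2) (by norm_num)).1 (h5.trans_le h8)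
  nlinarith [Nat.zero_le B]

/-- PRM -/
theorem prm : PrmStmt := by
  intro B x hx hp
  by_contra hx0
  have h1 : ∏ p ∈ (Finset.range (4 * (B + 2) ^ 2 + 1)).filter Nat.Prime, p ∣ x.natAbs := by
    apply Finset.prod_primes_dvd
    · intro p hp'
      exact (Finset.mem_filter.1 hp').2.prime
    · intro p hp'
      obtain ⟨h2, h3⟩ := Finset.mem_filter.1 hp'
      rw [Finset.mem_range] at h2
      exact Int.natCast_dvd.1 (hp p h3 (by omega))
  have h2 := Nat.le_of_dvd (Int.natAbs_pos.2 hx0) h1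
  have h3 : 2 ^ ((Finset.range (4 * (B + 2) ^ 2 + 1)).filter Nat.Prime).card ≤
      ∏ p ∈ (Finset.range (4 * (B + 2) ^ 2 + 1)).filter Nat.Prime, p := by
    rw [← Finset.prod_const]
    apply Finset.prod_le_prod'
    intro p hp'
    exact (Finset.mem_filter.1 hp').2.two_le
  have h4 := Nat.pow_lt_pow_right (a := 2) (by norm_num) (lt_card_primes B)
  have h5 : x.natAbs ≤ 2 ^ B := by
    have : (x.natAbs : ℤ) ≤ 2 ^ B := by
      rw [Int.natCast_natAbs]
      exact hx
    exact_mod_cast this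
  omega

end Pool.Agent.SN.H32
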